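import Mathlib

namespace Pool.Agent.H.MP_6bd626_an

open Set Filter Topology

abbrev K : Type := ℕ → Bool

def cons (b : Bool) (f : K) : K := fun n => Nat.casesOn n b f

theorem cons_cont (b : Bool) : Continuous (cons b) :=
  continuous_pi fun n => by cases n <;> simp only [cons] <;> fun_prop

theorem bij : Function.Bijective (Sum.elim (cons false) (cons true) : K ⊕ K → K) := by
  refine ⟨?_, fun f => ?_⟩
  · rintro (a | a) (b | b) h
    · exact congrArg _ (funext fun n => congrFun h (n + 1))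
    · exact absurd (congrFun h 0) (by simp [cons])
    · exact absurd (congrFun h 0) (by simp [cons])
    · exact congrArg _ (funext fun n => congrFun h (n + 1))
  · cases h : f 0
    · exact ⟨.inl fun n => f (n + 1), funext fun n => by cases n <;> simp [cons, h]⟩
    · exact ⟨.inr fun n => f (n + 1), funext fun n => by cases n <;> simp [cons, h]⟩

noncomputable def e : K ⊕ K ≃ₜ K :=
  Continuous.homeoOfEquivCompactToT2 (f := Equiv.ofBijective _ bij)
    ((cons_cont false).sumElim (cons_cont true))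

abbrev I : Type := K ⊕ K ⊕ K

instance : CompactlyCoherentSpace (I × I) := inferInstance
instance : LocallyCompactSpace (I × I) := inferInstance
instance : SecondCountableTopology (I × I) := inferInstance

def S : Submodule ℝ C(I × I, ℝ) where
  carrier := {F | ∀ x y z, F (x, z) = F (x, y) + F (y, z)}
  add_mem' := fun {F G} hF hG x y z => by
    simp only [ContinuousMap.add_apply, hF x y z, hG x y z]; ring
  zero_mem' := fun x y z => by simp
  smul_mem' := fun c F hF x y z => by
    simp only [ContinuousMap.smul_apply, hF x y z, smul_add]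

def X : Type := S
noncomputable instance : NormedAddCommGroup X := inferInstanceAs (NormedAddCommGroup S)
noncomputable instance : NormedSpace ℝ X := inferInstanceAs (NormedSpace ℝ S)
instance : CompleteSpace X := (IsClosed.isComplete (s := (S : Set C(I × I, ℝ))) (by
  show IsClosed {F : C(I × I, ℝ) | ∀ x y z, F (x, z) = F (x, y) + F (y, z)}
  simp only [ofPred_forall]
  exact isClosed_iInter fun x => isClosed_iInter fun y => isClosed_iInter fun z =>
    isClosed_eq (by fun_prop) (by fun_prop))).completeSpace_coe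
instance : SecondCountableTopology X := TopologicalSpace.Subtype.secondCountableTopology (S : Set C(I × I, ℝ))

def val (F : X) : C(I × I, ℝ) := Subtype.val F

theorem le_norm (F : X) (p : I × I) : |val F p| ≤ ‖F‖ := (val F).norm_coe_le_norm p

def R0 (h : I ≃ₜ I) (F : X) : X :=
  (⟨(val F).comp ⟨Prod.map h h, by fun_prop⟩, fun x y z => F.2 (h x) (h y) (h z)⟩ : S)

theorem R0_le (h : I ≃ₜ I) (F : X) : ‖R0 h F‖ ≤ ‖F‖ :=
  (ContinuousMap.norm_le _ (norm_nonneg _)).2 fun _ => le_norm F _

theorem R0_inv (h : I ≃ₜ I) (F : X) : R0 h.symm (R0 h F) = F :=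
  Subtype.ext (ContinuousMap.ext fun p => congrArg (val F) (by
    show (h (h.symm p.1), h (h.symm p.2)) = p
    simp))

noncomputable def R (h : I ≃ₜ I) : X ≃ₗᵢ[ℝ] X where
  toFun := R0 h
  invFun := R0 h.symm
  map_add' _ _ := rfl
  map_smul' _ _ := rfl
  left_inv := R0_inv h
  right_inv := R0_inv h.symm
  norm_map' F := le_antisymm (R0_le h F) ((congrArg norm (R0_inv h F)).ge.trans (R0_le _ _))

noncomputable def u (t : I) (F : X) : ℝ := ⨆ y, val F (t, y)

theorem bdd (t : I) (F : X) : BddAbove (range fun y => val F (t, y)) :=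
  ⟨‖F‖, by rintro _ ⟨y, rfl⟩; exact (abs_le.1 (le_norm F _)).2⟩

theorem u_zero (t : I) : u t 0 = 0 := ciSup_const

theorem u_lip (t : I) : LipschitzWith 1 (u t) :=
  LipschitzWith.of_le_add fun F G => ciSup_le fun y => by
    have : val F (t, y) - val G (t, y) ≤ ‖F - G‖ := (abs_le.1 (le_norm (F - G) (t, y))).2
    rw [dist_eq_norm]
    linarith [le_ciSup (bdd t G) y, show u t G = ⨆ y, val G (t, y) from rfl]

noncomputable def ev (p : I × I) : X →L[ℝ] ℝ :=
  LinearMap.mkContinuous ⟨⟨fun F => val F p, fun _ _ => rfl⟩, fun _ _ => rfl⟩ 1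
    fun F => by rw [one_mul]; exact le_norm F p

theorem u_ch (s t : I) (F : X) : u s F = ev (s, t) F + u t F := by
  rw [u, u, add_ciSup (bdd t F)]
  exact iSup_congr fun y => F.2 s t y

theorem u_R (h : I ≃ₜ I) (t : I) (F : X) : u t (R h F) = u (h t) F :=
  h.toEquiv.iSup_congr fun _ => rfl

def D (f : C(I, ℝ)) : X :=
  (⟨⟨fun p => f p.1 - f p.2, by fun_prop⟩, fun x y z => by simp⟩ : S)

theorem D_add (f g : C(I, ℝ)) : D (f + g) = D f + D g :=
  Subtype.ext (ContinuousMap.ext fun p => by
    show (f p.1 + g p.1) - (f p.2 + g p.2) = (f p.1 - f p.2) + (g p.1 - g p.2)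
    ring)

def ind (a b c : ℝ) : C(I, ℝ) :=
  ⟨Sum.elim (fun _ => a) (Sum.elim (fun _ => b) fun _ => c),
    continuous_const.sumElim (continuous_const.sumElim continuous_const)⟩

theorem no_mean (m : C(I, ℝ) → ℝ) (ha : ∀ f g, m (f + g) = m f + m g) (h1 : m 1 = 1)
    (hi : ∀ (h : I ≃ₜ I) f, m (f.comp ⟨h, h.continuous⟩) = m f) : False := by
  have a1 : ind 1 0 0 + ind 0 1 1 = 1 := by ext (_ | _ | _) <;> simp [ind]
  have a2 : ind 0 1 0 + ind 0 0 1 = ind 0 1 1 := by ext (_ | _ | _) <;> simp [ind]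
  have b1 := hi ((Homeomorph.refl K).sumCongr (Homeomorph.sumComm K K)) (ind 0 1 0)
  have b2 := hi ((Homeomorph.sumAssoc K K K).symm.trans (Homeomorph.sumComm _ _)) (ind 1 0 0)
  have b3 := hi ((Homeomorph.sumComm _ _).trans (e.sumCongr e.symm)) (ind 1 0 0)
  rw [show (ind 0 1 0).comp _ = ind 0 0 1 by ext (_ | _ | _) <;> rfl] at b1
  rw [show (ind 1 0 0).comp _ = ind 0 0 1 by ext (_ | _ | _) <;> rfl] at b2
  rw [show (ind 1 0 0).comp _ = ind 0 1 1 by
    ext (x | _ | _)
    · show ind 1 0 0 (.inr (e.symm x)) = 0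
      cases e.symm x <;> rfl
    all_goals rfl] at b3
  have c1 := ha (ind 1 0 0) (ind 0 1 1)
  have c2 := ha (ind 0 1 0) (ind 0 0 1)
  rw [a1] at c1
  rw [a2] at c2
  linarith

theorem main (Q : I → X →L[ℝ] ℝ) (h1 : ∀ s t, Q s = ev (s, t) + Q t)
    (h2 : ∀ (h : I ≃ₜ I) t F, Q t (R h F) = Q (h t) F) : False := by
  let t : I := .inl fun _ => true
  refine no_mean (fun f => f t - Q t (D f)) (fun f g => ?_) ?_ fun h f => ?_
  · rw [D_add, map_add, ContinuousMap.add_apply]; ring
  · rw [show D 1 = 0 from Subtype.ext (ContinuousMap.ext fun p => sub_self (1 : ℝ))]; simp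
  · rw [show D (f.comp ⟨h, h.continuous⟩) = R h (D f) from rfl, h2, h1 (h t) t]
    show f (h t) - (f (h t) - f t + Q t (D f)) = _
    ring

end Pool.Agent.H.MP_6bd626_an
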